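import Mathlib
/-!
# A container lemma for weighted uniform hypergraphs
-/

set_option autoImplicit false

open Finset

namespace Pool.Agent.Y940.CT

/-- the degree of `J` -/
noncomputable def deg (U : Finset ℕ) (w : Finset ℕ → ℝ) (J : Finset ℕ) : ℝ :=
  ∑ e ∈ U.powerset, if J ⊆ e then w e else 0

/-- The sets with property `P` are covered by at most `n` subsets of `U` of size at most `γ`. -/
def Cov (P : Finset ℕ → Prop) (U : Finset ℕ) (n γ : ℝ) : Prop :=
  ∃ 𝒞 : Finset (Finset ℕ), (𝒞.card : ℝ) ≤ n ∧ (∀ C ∈ 𝒞, C ⊆ U ∧ (C.card : ℝ) ≤ γ) ∧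
    ∀ I, P I → ∃ C ∈ 𝒞, I ⊆ C

theorem Cov.mono {P P' : Finset ℕ → Prop} {U : Finset ℕ} {n n' γ γ' : ℝ} (h : Cov P U n γ)
    (hP : ∀ I, P' I → P I) (hn : n ≤ n') (hγ : γ ≤ γ') : Cov P' U n' γ' := by
  obtain ⟨C, h1, h2, h3⟩ := h
  exact ⟨C, h1.trans hn, fun c hc => ⟨(h2 c hc).1, (h2 c hc).2.trans hγ⟩, fun I hI => h3 I (hP I hI)⟩

theorem Cov.union {P P' : Finset ℕ → Prop} {U : Finset ℕ} {n n' γ : ℝ} (h : Cov P U n γ)
    (h' : Cov P' U n' γ) : Cov (fun I => P I ∨ P' I) U (n + n') γ := by
  classical
  obtain ⟨C, h1, h2, h3⟩ := h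
  obtain ⟨C', h1', h2', h3'⟩ := h'
  refine ⟨C ∪ C', ?_, ?_, ?_⟩
  · have := card_union_le C C'
    have h4 : ((C ∪ C').card : ℝ) ≤ (C.card : ℝ) + C'.card := by exact_mod_cast this
    linarith
  · intro c hc
    rcases mem_union.1 hc with h | h
    · exact h2 c h
    · exact h2' c h
  · rintro I (hI | hI)
    · obtain ⟨c, hc, hI2⟩ := h3 I hI
      exact ⟨c, mem_union_left _ hc, hI2⟩
    · obtain ⟨c, hc, hI2⟩ := h3' I hI
      exact ⟨c, mem_union_right _ hc, hI2⟩

theorem Cov.one {P : Finset ℕ → Prop} {U C : Finset ℕ} {γ : ℝ} (hC : C ⊆ U)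
    (hγ : (C.card : ℝ) ≤ γ) (hP : ∀ I, P I → I ⊆ C) : Cov P U 1 γ :=
  ⟨{C}, by simp, fun c hc => by rw [mem_singleton.1 hc]; exact ⟨hC, hγ⟩,
    fun I hI => ⟨C, mem_singleton_self _, hP I hI⟩⟩

/-- `I` contains no edge -/
def Ind (w : Finset ℕ → ℝ) (I : Finset ℕ) : Prop := ∀ e ⊆ I, w e = 0

/-- a weighted `s`-uniform hypergraph of average degree at least `D` with well distributed
codegrees -/
structure Spread (U : Finset ℕ) (s : ℕ) (w : Finset ℕ → ℝ) (D K τ : ℝ) : Prop where
  nonneg : ∀ e, 0 ≤ w e
  supp : ∀ e, w e ≠ 0 → e ⊆ U ∧ e.card = s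
  total : U.card * D ≤ ∑ e ∈ U.powerset, w e
  codeg : ∀ J : Finset ℕ, J.Nonempty → deg U w J * τ ≤ K * D * τ ^ J.card

theorem deg_nonneg {U : Finset ℕ} {w : Finset ℕ → ℝ} (hw : ∀ e, 0 ≤ w e) (J : Finset ℕ) :
    0 ≤ deg U w J := sum_nonneg fun e _ => by
  split_ifs
  · exact hw e
  · exact le_rfl

theorem deg_mono {U : Finset ℕ} {w w' : Finset ℕ → ℝ} (h : ∀ e, w e ≤ w' e) (J : Finset ℕ) :
    deg U w J ≤ deg U w' J := sum_le_sum fun e _ => by
  split_ifs
  · exact h e
  · exact le_rfl

theorem total_le_sum_deg {U A : Finset ℕ} {h : Finset ℕ → ℝ} (h0 : ∀ e, 0 ≤ h e)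
    (h1 : ∀ e, h e ≠ 0 → e ⊆ A ∧ e.Nonempty) :
    ∑ e ∈ U.powerset, h e ≤ ∑ v ∈ A, deg U h {v} := by
  unfold deg
  rw [sum_comm]
  refine sum_le_sum fun e _ => ?_
  by_cases he : h e = 0
  · rw [he]
    exact sum_nonneg fun v _ => by split_ifs <;> rfl
  · obtain ⟨h2, v, hv⟩ := h1 e he
    refine le_trans (le_of_eq ?_) (single_le_sum (f := fun v => if ({v} : Finset ℕ) ⊆ e then h e
      else 0) (fun v _ => ?_) (h2 hv))
    · rw [if_pos (singleton_subset_iff.2 hv)]
    · split_ifs
      · exact h0 e
      · exact le_rfl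

theorem link_sum {U J : Finset ℕ} {v : ℕ} (hv : v ∈ U) (hJ : v ∉ J) (h : Finset ℕ → ℝ) :
    ∑ f ∈ U.powerset, (if J ⊆ f then (if v ∉ f then h (insert v f) else 0) else 0) =
      deg U h (insert v J) := by
  classical
  unfold deg
  have h1 : ∀ f : Finset ℕ, (if J ⊆ f then (if v ∉ f then h (insert v f) else 0) else 0) =
      if (J ⊆ f ∧ v ∉ f) then h (insert v f) else 0 := by
    intro f
    by_cases h1 : J ⊆ f <;> by_cases h2 : v ∉ f <;> simp [h1, h2]
  simp_rw [h1]
  rw [← sum_filter, ← sum_filter]
  refine sum_nbij' (fun f => insert v f) (fun e => e.erase v) ?_ ?_ ?_ ?_ ?_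
  · intro f hf
    rw [mem_filter, mem_powerset] at hf ⊢
    exact ⟨insert_subset hv hf.1, insert_subset_insert v hf.2.1⟩
  · intro e he
    rw [mem_filter, mem_powerset] at he ⊢
    refine ⟨(erase_subset v e).trans he.1, ?_, notMem_erase v e⟩
    intro x hx
    rw [mem_erase]
    refine ⟨?_, he.2 (mem_insert_of_mem hx)⟩
    rintro rfl
    exact hJ hx
  · intro f hf
    rw [mem_filter] at hf
    exact erase_insert hf.2.2
  · intro e he
    rw [mem_filter] at he
    exact insert_erase (he.2 (mem_insert_self v J))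
  · intro f _
    rfl

open Classical in
/-- the active part of the hypergraph -/
noncomputable def act (U : Finset ℕ) (w g : Finset ℕ → ℝ) (M τ : ℝ) (A : Finset ℕ)
    (e : Finset ℕ) : ℝ :=
  if e ⊆ A ∧ ∀ J, J ⊆ e → J.Nonempty → deg U g J < M * τ ^ J.card then w e else 0

theorem act_nonneg {U : Finset ℕ} {w g : Finset ℕ → ℝ} {M τ : ℝ} {A : Finset ℕ}
    (hw : ∀ e, 0 ≤ w e) (e : Finset ℕ) : 0 ≤ act U w g M τ A e := by
  unfold act
  split_ifs
  · exact hw e
  · exact le_rfl

theorem act_le {U : Finset ℕ} {w g : Finset ℕ → ℝ} {M τ : ℝ} {A : Finset ℕ}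
    (hw : ∀ e, 0 ≤ w e) (e : Finset ℕ) : act U w g M τ A e ≤ w e := by
  unfold act
  split_ifs
  · exact le_rfl
  · exact hw e

theorem act_ne {U : Finset ℕ} {w g : Finset ℕ → ℝ} {M τ : ℝ} {A e : Finset ℕ}
    (h : act U w g M τ A e ≠ 0) :
    w e ≠ 0 ∧ e ⊆ A ∧ ∀ J, J ⊆ e → J.Nonempty → deg U g J < M * τ ^ J.card := by
  unfold act at h
  split_ifs at h with h1
  · exact ⟨h, h1⟩
  · exact absurd rfl h

/-- The stalled case: few available vertices. -/
theorem stalled {U A : Finset ℕ} {s : ℕ} {w g : Finset ℕ → ℝ} {D K C τ : ℝ}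
    (hw : Spread U (s + 1) w D K τ) (hA : A ⊆ U) (hD : 0 < D) (hK : 1 ≤ K) (hτ : 0 < τ)
    (hC : C = 2 ^ (s + 3) * K ^ 2) (hg0 : ∀ f, 0 ≤ g f)
    (hgs : ∀ f, g f ≠ 0 → f ⊆ U ∧ f.card = s) {t : ℝ} (hgt : ∑ f ∈ U.powerset, g f ≤ t * (K * D))
    (ht : t ≤ 2 * τ * U.card)
    (hst : ∀ v ∈ A, deg U (act U w g (C * D) τ A) {v} < D / 4) :
    (U.card : ℝ) / (2 * K) ≤ U.card - A.card := by
  classical
  have hC0 : 0 < C := by
    rw [hC]
    positivity
  set a := act U w g (C * D) τ A with ha
  set Sat : Finset (Finset ℕ) :=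
    U.powerset.filter (fun J => J.Nonempty ∧ C * D * τ ^ J.card ≤ deg U g J) with hSat
  have hsplit : ∑ e ∈ U.powerset, w e ≤ ∑ e ∈ U.powerset, a e + ∑ v ∈ U \ A, deg U w {v} +
      ∑ J ∈ Sat, deg U w J := by
    have e1 : ∑ v ∈ U \ A, deg U w {v} =
        ∑ e ∈ U.powerset, ∑ v ∈ U \ A, (if ({v} : Finset ℕ) ⊆ e then w e else 0) := by
      unfold deg
      exact sum_comm
    have e2 : ∑ J ∈ Sat, deg U w J =
        ∑ e ∈ U.powerset, ∑ J ∈ Sat, (if J ⊆ e then w e else 0) := by
      unfold deg
      exact sum_comm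
    rw [e1, e2, ← sum_add_distrib, ← sum_add_distrib]
    refine sum_le_sum fun e he => ?_
    have h1 : 0 ≤ ∑ v ∈ U \ A, (if ({v} : Finset ℕ) ⊆ e then w e else 0) :=
      sum_nonneg fun v _ => by
        split_ifs
        · exact hw.nonneg e
        · exact le_rfl
    have h2 : 0 ≤ ∑ J ∈ Sat, (if J ⊆ e then w e else 0) :=
      sum_nonneg fun v _ => by
        split_ifs
        · exact hw.nonneg e
        · exact le_rfl
    have h3 : 0 ≤ a e := act_nonneg hw.nonneg e
    by_cases heA : e ⊆ A
    · by_cases hsat : ∀ J, J ⊆ e → J.Nonempty → deg U g J < C * D * τ ^ J.card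
      · have h4 : a e = w e := by
          rw [ha]
          unfold act
          rw [if_pos ⟨heA, hsat⟩]
        linarith
      · push Not at hsat
        obtain ⟨J, hJ1, hJ2, hJ3⟩ := hsat
        have h5 : w e ≤ ∑ J ∈ Sat, (if J ⊆ e then w e else 0) := by
          refine le_trans (le_of_eq ?_) (single_le_sum (f := fun J => if J ⊆ e then w e
            else 0) (fun v _ => ?_) (a := J) ?_)
          · rw [if_pos hJ1]
          · split_ifs
            · exact hw.nonneg e
            · exact le_rfl
          · rw [hSat, mem_filter, mem_powerset]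
            exact ⟨hJ1.trans (mem_powerset.1 he), hJ2, hJ3⟩
        linarith
    · rw [not_subset] at heA
      obtain ⟨v, hv1, hv2⟩ := heA
      have h5 : w e ≤ ∑ v ∈ U \ A, (if ({v} : Finset ℕ) ⊆ e then w e else 0) := by
        refine le_trans (le_of_eq ?_) (single_le_sum (f := fun v => if ({v} : Finset ℕ) ⊆ e then w e
          else 0) (fun v _ => ?_) (a := v) ?_)
        · rw [if_pos (singleton_subset_iff.2 hv1)]
        · split_ifs
          · exact hw.nonneg e
          · exact le_rfl
        · rw [mem_sdiff]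
          exact ⟨mem_powerset.1 he hv1, hv2⟩
      linarith
  have hact : ∑ e ∈ U.powerset, a e ≤ A.card * (D / 4) := by
    refine (total_le_sum_deg (A := A) (act_nonneg hw.nonneg) ?_).trans ?_
    · intro e he
      obtain ⟨h1, h2, _⟩ := act_ne he
      refine ⟨h2, card_pos.1 ?_⟩
      rw [(hw.supp e h1).2]
      omega
    · rw [← nsmul_eq_mul, ← sum_const]
      exact sum_le_sum fun v hv => (hst v hv).le
  have hvert : ∑ v ∈ U \ A, deg U w {v} ≤ (U \ A).card * (K * D) := by
    rw [← nsmul_eq_mul, ← sum_const]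
    refine sum_le_sum fun v _ => ?_
    have := hw.codeg {v} (singleton_nonempty v)
    rw [card_singleton, pow_one] at this
    exact le_of_mul_le_mul_right this hτ
  have hsatsum : ∑ J ∈ Sat, deg U w J ≤ K / (C * τ) * (2 ^ s * (t * (K * D))) := by
    calc ∑ J ∈ Sat, deg U w J
        ≤ ∑ J ∈ Sat, K / (C * τ) * deg U g J := by
          refine sum_le_sum fun J hJ => ?_
          rw [hSat] at hJ
          obtain ⟨_, h1, h2⟩ := mem_filter.1 hJ
          have h3 := hw.codeg J h1
          have h4 : K / (C * τ) * deg U g J = (K * deg U g J) / C / τ := by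
            field_simp
          rw [h4, le_div_iff₀ hτ, le_div_iff₀ hC0]
          calc deg U w J * τ * C ≤ K * D * τ ^ J.card * C :=
                mul_le_mul_of_nonneg_right h3 hC0.le
            _ = K * (C * D * τ ^ J.card) := by ring
            _ ≤ K * deg U g J := mul_le_mul_of_nonneg_left h2 (by linarith)
      _ ≤ ∑ J ∈ U.powerset, K / (C * τ) * deg U g J := by
          refine sum_le_sum_of_subset_of_nonneg (filter_subset _ _) fun J _ _ => ?_
          have := deg_nonneg (U := U) hg0 J
          exact mul_nonneg (by positivity) this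
      _ = K / (C * τ) * (2 ^ s * ∑ f ∈ U.powerset, g f) := by
          rw [← mul_sum]
          congr 1
          unfold deg
          rw [sum_comm, mul_sum]
          refine sum_congr rfl fun f hf => ?_
          rw [← sum_filter, sum_const, nsmul_eq_mul]
          by_cases hgf : g f = 0
          · rw [hgf]
            ring
          · have h5 : U.powerset.filter (fun J => J ⊆ f) = f.powerset := by
              ext J
              rw [mem_filter, mem_powerset, mem_powerset]
              exact ⟨fun h => h.2, fun h => ⟨h.trans (mem_powerset.1 hf), h⟩⟩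
            rw [h5, card_powerset, (hgs f hgf).2]
            push_cast
            ring
      _ ≤ K / (C * τ) * (2 ^ s * (t * (K * D))) := by
          refine mul_le_mul_of_nonneg_left ?_ (by positivity)
          exact mul_le_mul_of_nonneg_left hgt (by positivity)
  have hsat2 : K / (C * τ) * (2 ^ s * (t * (K * D))) ≤ U.card * (D / 4) := by
    calc K / (C * τ) * (2 ^ s * (t * (K * D)))
        ≤ K / (C * τ) * (2 ^ s * ((2 * τ * U.card) * (K * D))) := by
          refine mul_le_mul_of_nonneg_left ?_ (by positivity)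
          refine mul_le_mul_of_nonneg_left ?_ (by positivity)
          exact mul_le_mul_of_nonneg_right ht (by positivity)
      _ = U.card * (D / 4) := by
          rw [hC]
          have hK0 : K ≠ 0 := by positivity
          have h2s : (2 : ℝ) ^ (s + 3) = 2 ^ s * 8 := by ring
          rw [h2s]
          field_simp
          ring
  have hcard : ((U \ A).card : ℝ) = U.card - A.card := by
    rw [card_sdiff_of_subset hA, Nat.cast_sub (card_le_card hA)]
  have hAU : (A.card : ℝ) ≤ U.card := by exact_mod_cast card_le_card hA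
  have hmain : (U.card : ℝ) * D ≤ A.card * (D / 4) + (U.card - A.card) * (K * D) +
      U.card * (D / 4) := by
    have h1 := hw.total
    rw [hcard] at hvert
    linarith
  rw [div_le_iff₀ (by positivity)]
  have h6 : (U.card : ℝ) * D ≤ ((U.card - A.card) * (2 * K)) * D := by
    have h7 : (A.card : ℝ) * (D / 4) ≤ U.card * (D / 4) :=
      mul_le_mul_of_nonneg_right hAU (by positivity)
    linarith
  exact le_of_mul_le_mul_right h6 hD

/-- One phase of the algorithm: the uniformity drops by one. -/
theorem phase {U : Finset ℕ} {s : ℕ} {w : Finset ℕ → ℝ} {D K C τ γ n : ℝ}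
    (hw : Spread U (s + 1) w D K τ) (hD : 0 < D) (hK : 1 ≤ K) (hτ : 0 < τ)
    (hτ1 : τ ≤ 1) {q : ℕ} (hq1 : U.card * τ ≤ q) (hq2 : (q : ℝ) ≤ 2 * τ * U.card)
    (hC : C = 2 ^ (s + 3) * K ^ 2)
    (hγ : (U.card : ℝ) - U.card / (2 * K) + q ≤ γ) (hn : 1 ≤ n)
    (IH : ∀ g, Spread U s g (τ * D / 4) (4 * (C + K)) τ →
      Cov (fun I => I ⊆ U ∧ Ind g I) U n γ) :
    ∀ (a : ℕ) (A T : Finset ℕ) (g : Finset ℕ → ℝ) (q' t : ℕ), A.card = a → A ⊆ U → T ⊆ U →
      q' + t = q → T.card ≤ t → (∀ f, 0 ≤ g f) → (∀ f, g f ≠ 0 → f ⊆ U ∧ f.card = s) →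
      (t * (D / 4) ≤ ∑ f ∈ U.powerset, g f) → (∑ f ∈ U.powerset, g f ≤ t * (K * D)) →
      (∀ J : Finset ℕ, J.Nonempty → deg U g J ≤ (C + K) * D * τ ^ J.card) →
      Cov (fun I => I ⊆ A ∪ T ∧ Ind w I ∧ Ind g I) U (τ⁻¹ ^ q' * (1 + τ) ^ a * n) γ := by
  classical
  have hC0 : 0 < C := by
    rw [hC]
    positivity
  intro a
  induction a using Nat.strong_induction_on with
  | _ a ih =>
  intro A T g q' t hAa hA hT hqt hTt hg0 hgs hgl hgu hgc
  have hinv : (1 : ℝ) ≤ τ⁻¹ := (one_le_inv₀ hτ).2 hτ1
  have hone : (1 : ℝ) ≤ τ⁻¹ ^ q' * (1 + τ) ^ a :=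
    one_le_mul_of_one_le_of_one_le (one_le_pow₀ hinv) (one_le_pow₀ (by linarith))
  rcases Nat.eq_zero_or_pos q' with hq0 | hq0
  · -- the new hypergraph is complete
    have ht : t = q := by omega
    have hsp : Spread U s g (τ * D / 4) (4 * (C + K)) τ := by
      refine ⟨hg0, hgs, le_trans ?_ hgl, fun J hJ => ?_⟩
      · rw [ht]
        calc (U.card : ℝ) * (τ * D / 4) = (U.card * τ) * (D / 4) := by ring
          _ ≤ q * (D / 4) := mul_le_mul_of_nonneg_right hq1 (by positivity)
      · calc deg U g J * τ ≤ ((C + K) * D * τ ^ J.card) * τ :=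
              mul_le_mul_of_nonneg_right (hgc J hJ) hτ.le
          _ = 4 * (C + K) * (τ * D / 4) * τ ^ J.card := by ring
    refine (IH g hsp).mono ?_ (le_mul_of_one_le_left (by linarith) hone) le_rfl
    rintro I ⟨h1, _, h3⟩
    exact ⟨h1.trans (union_subset hA hT), h3⟩
  · by_cases hst : ∀ v ∈ A, deg U (act U w g (C * D) τ A) {v} < D / 4
    · -- stalled
      have htq : (t : ℝ) ≤ q := by exact_mod_cast (by omega : t ≤ q)
      have h1 := stalled hw hA hD hK hτ hC hg0 hgs hgu (htq.trans hq2) hst
      refine (Cov.one (C := A ∪ T) (union_subset hA hT) ?_ (fun I hI => hI.1)).mono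
        (fun I hI => hI) ?_ le_rfl
      · have h2 : ((A ∪ T).card : ℝ) ≤ A.card + T.card := by exact_mod_cast card_union_le A T
        have h3 : (T.card : ℝ) ≤ t := by exact_mod_cast hTt
        linarith
      · exact one_le_mul_of_one_le_of_one_le hone hn
    · push Not at hst
      obtain ⟨v, hvA, hv⟩ := hst
      have hvU := hA hvA
      have hcardA : (A.erase v).card = a - 1 := by rw [card_erase_of_mem hvA, hAa]
      have ha1 : 1 ≤ a := by
        rw [← hAa]
        exact card_pos.2 ⟨v, hvA⟩
      have hlt : a - 1 < a := by omega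
      -- `v` is not in `I`
      have hL := ih (a - 1) hlt (A.erase v) T g q' t hcardA ((erase_subset v A).trans hA) hT hqt hTt
        hg0 hgs hgl hgu hgc
      -- `v` is in `I`
      set b := act U w g (C * D) τ A with hb
      have hb0 : ∀ e, 0 ≤ b e := act_nonneg hw.nonneg
      have hbw : ∀ e, b e ≤ w e := act_le hw.nonneg
      set l : Finset ℕ → ℝ := fun f => if v ∉ f then b (insert v f) else 0 with hl
      have hl0 : ∀ f, 0 ≤ l f := fun f => by
        rw [hl]
        simp only
        by_cases h : v ∉ f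
        · rw [if_pos h]
          exact hb0 _
        · rw [if_neg h]
      have hdl : ∀ J : Finset ℕ, v ∉ J → deg U l J = deg U b (insert v J) := by
        intro J hJ
        rw [← link_sum hvU hJ b]
        rfl
      have hdl2 : ∀ J : Finset ℕ, v ∈ J → deg U l J = 0 := by
        intro J hJ
        unfold deg
        refine sum_eq_zero fun f _ => ?_
        split_ifs with h
        · rw [hl]
          simp only
          rw [if_neg (not_not.2 (h hJ))]
        · rfl
      have hdadd : ∀ J : Finset ℕ, deg U (fun f => g f + l f) J = deg U g J + deg U l J := by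
        intro J
        unfold deg
        rw [← sum_add_distrib]
        refine sum_congr rfl fun f _ => ?_
        split_ifs <;> ring
      have hdw : ∀ J : Finset ℕ, J.Nonempty → deg U w J ≤ K * D * τ ^ J.card / τ := by
        intro J hJ
        rw [le_div_iff₀ hτ]
        exact hw.codeg J hJ
      have htot : ∑ f ∈ U.powerset, l f = deg U b {v} := by
        have h1 : deg U l ∅ = deg U b (insert v ∅) := hdl ∅ (notMem_empty v)
        rw [insert_empty_eq] at h1
        rw [← h1]
        unfold deg
        refine sum_congr rfl fun f _ => ?_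
        rw [if_pos (empty_subset f)]
      have hR := ih (a - 1) hlt (A.erase v) (insert v T) (fun f => g f + l f) (q' - 1) (t + 1)
        hcardA ((erase_subset v A).trans hA) (insert_subset hvU hT) (by omega)
        ((card_insert_le v T).trans (by omega)) (fun f => add_nonneg (hg0 f) (hl0 f)) ?_ ?_ ?_ ?_
      · refine (hL.union hR).mono ?_ (le_of_eq ?_) le_rfl
        · rintro I ⟨h1, h2, h3⟩
          by_cases hvI : v ∈ I
          · right
            refine ⟨?_, h2, ?_⟩
            · intro x hx
              rcases mem_union.1 (h1 hx) with h | h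
              · by_cases hxv : x = v
                · rw [hxv]
                  exact mem_union_right _ (mem_insert_self v T)
                · exact mem_union_left _ (mem_erase.2 ⟨hxv, h⟩)
              · exact mem_union_right _ (mem_insert_of_mem h)
            · intro f hf
              have h4 : l f = 0 := by
                rw [hl]
                simp only
                by_cases h : v ∉ f
                · rw [if_pos h]
                  by_contra h5
                  exact (act_ne h5).1 (h2 _ (insert_subset hvI hf))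
                · rw [if_neg h]
              simp only
              rw [h3 f hf, h4, add_zero]
          · left
            refine ⟨?_, h2, h3⟩
            intro x hx
            rcases mem_union.1 (h1 hx) with h | h
            · refine mem_union_left _ (mem_erase.2 ⟨?_, h⟩)
              rintro rfl
              exact hvI hx
            · exact mem_union_right _ h
        · obtain ⟨q2, rfl⟩ : ∃ q2, q' = q2 + 1 := ⟨q' - 1, by omega⟩
          obtain ⟨a2, rfl⟩ : ∃ a2, a = a2 + 1 := ⟨a - 1, by omega⟩
          simp only [Nat.add_sub_cancel]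
          rw [pow_succ, pow_succ]
          field_simp
      · intro f hf
        by_cases h1 : g f = 0
        · have h2 : l f ≠ 0 := by
            intro h3
            exact hf (by rw [h1, h3, add_zero])
          rw [hl] at h2
          simp only at h2
          by_cases h4 : v ∉ f
          · rw [if_pos h4] at h2
            obtain ⟨h5, h6, _⟩ := act_ne h2
            obtain ⟨h7, h8⟩ := hw.supp _ h5
            refine ⟨(subset_insert v f).trans h7, ?_⟩
            rw [card_insert_of_notMem h4] at h8
            omega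
          · rw [if_neg h4] at h2
            exact absurd rfl h2
        · exact hgs f h1
      · rw [sum_add_distrib, htot]
        push_cast
        linarith
      · rw [sum_add_distrib, htot]
        have h1 : deg U b {v} ≤ deg U w {v} := deg_mono hbw _
        have h2 := hdw {v} (singleton_nonempty v)
        rw [card_singleton, pow_one, mul_div_assoc, div_self hτ.ne', mul_one] at h2
        push_cast
        linarith
      · intro J hJ
        rw [hdadd J]
        by_cases hvJ : v ∈ J
        · rw [hdl2 J hvJ, add_zero]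
          exact hgc J hJ
        · rw [hdl J hvJ]
          by_cases hsat : deg U g J < C * D * τ ^ J.card
          · have h1 : deg U b (insert v J) ≤ deg U w (insert v J) := deg_mono hbw _
            have h2 := hdw (insert v J) (insert_nonempty v J)
            rw [card_insert_of_notMem hvJ, pow_succ, ← mul_assoc, mul_div_assoc, div_self hτ.ne',
              mul_one] at h2
            calc deg U g J + deg U b (insert v J) ≤ C * D * τ ^ J.card + K * D * τ ^ J.card := by
                  linarith
              _ = _ := by ring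
          · have h3 : deg U b (insert v J) = 0 := by
              unfold deg
              refine sum_eq_zero fun e _ => ?_
              split_ifs with h
              · by_contra h5
                exact hsat ((act_ne h5).2.2 J ((subset_insert v J).trans h) hJ)
              · rfl
            rw [h3, add_zero]
            exact hgc J hJ

/-- **The container lemma.** -/
theorem containers (s : ℕ) (hs : 1 ≤ s) : ∀ K : ℝ, 1 ≤ K → ∃ δ : ℝ, 0 < δ ∧ δ ≤ 1 ∧
    ∃ τ₀ : ℝ, 0 < τ₀ ∧ τ₀ ≤ 1 ∧
    ∀ (U : Finset ℕ) (w : Finset ℕ → ℝ) (D τ : ℝ) (q : ℕ), 0 < D → 0 < τ → τ ≤ τ₀ →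
      U.card * τ ≤ q → (q : ℝ) ≤ 2 * τ * U.card → Spread U s w D K τ →
      Cov (fun I => I ⊆ U ∧ Ind w I) U ((τ⁻¹ ^ q * (1 + τ) ^ U.card) ^ (s - 1))
        ((1 - δ) * U.card) := by
  classical
  induction s, hs using Nat.le_induction with
  | base =>
    intro K hK
    refine ⟨1 / K, by positivity, ?_, 1, one_pos, le_rfl, ?_⟩
    · rw [div_le_one (by linarith)]
      exact hK
    intro U w D τ q hD hτ _ _ _ hw
    rw [Nat.sub_self, pow_zero]
    refine (Cov.one (C := U.filter fun v => w {v} = 0) (filter_subset _ _) ?_ ?_).mono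
      (P := fun I => I ⊆ U ∧ Ind w I) (fun I hI => hI) le_rfl le_rfl
    · have h1 : ∑ e ∈ U.powerset, w e ≤ ∑ v ∈ U.filter (fun v => ¬ w {v} = 0), deg U w {v} := by
        refine total_le_sum_deg hw.nonneg fun e he => ?_
        obtain ⟨h2, h3⟩ := hw.supp e he
        obtain ⟨x, rfl⟩ := card_eq_one.1 h3
        refine ⟨?_, singleton_nonempty x⟩
        rw [singleton_subset_iff, mem_filter]
        exact ⟨h2 (mem_singleton_self x), he⟩
      have h2 : ∑ v ∈ U.filter (fun v => ¬ w {v} = 0), deg U w {v} ≤
          (U.filter (fun v => ¬ w {v} = 0)).card * (K * D) := by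
        rw [← nsmul_eq_mul, ← sum_const]
        refine sum_le_sum fun v _ => ?_
        have := hw.codeg {v} (singleton_nonempty v)
        rw [card_singleton, pow_one] at this
        exact le_of_mul_le_mul_right this hτ
      have h3 : ((U.filter fun v => w {v} = 0).card : ℝ) +
          (U.filter (fun v => ¬ w {v} = 0)).card = U.card := by
        exact_mod_cast card_filter_add_card_filter_not (s := U) (fun v => w {v} = 0)
      have h4 : (U.card : ℝ) * D ≤ ((U.filter (fun v => ¬ w {v} = 0)).card * K) * D := by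
        have := hw.total
        linarith
      have h5 := le_of_mul_le_mul_right h4 hD
      have h6 : (U.card : ℝ) / K ≤ (U.filter (fun v => ¬ w {v} = 0)).card := by
        rw [div_le_iff₀ (by linarith)]
        exact h5
      have h7 : (1 - 1 / K) * U.card = (U.card : ℝ) - U.card / K := by ring
      rw [h7]
      linarith
    · rintro I ⟨h1, h2⟩ v hv
      rw [mem_filter]
      exact ⟨h1 hv, h2 {v} (singleton_subset_iff.2 hv)⟩
  | succ s hs ih =>
    intro K hK
    set C : ℝ := 2 ^ (s + 3) * K ^ 2 with hC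
    have hC0 : 0 < C := by positivity
    obtain ⟨δ, hδ0, hδ1, τ₀, hτ₀, hτ₁, hmain⟩ := ih (4 * (C + K)) (by linarith)
    refine ⟨min δ (1 / (4 * K)), lt_min hδ0 (by positivity), (min_le_left _ _).trans hδ1,
      min τ₀ (1 / (8 * K)), lt_min hτ₀ (by positivity), (min_le_left _ _).trans hτ₁, ?_⟩
    intro U w D τ q hD hτ hτle hq1 hq2 hw
    have hτ1 : τ ≤ 1 := hτle.trans ((min_le_left _ _).trans hτ₁)
    have hU0 : (0 : ℝ) ≤ U.card := Nat.cast_nonneg _
    set n : ℝ := (τ⁻¹ ^ q * (1 + τ) ^ U.card) ^ (s - 1) with hn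
    have hbase : 1 ≤ τ⁻¹ ^ q * (1 + τ) ^ U.card :=
      one_le_mul_of_one_le_of_one_le (one_le_pow₀ ((one_le_inv₀ hτ).2 hτ1))
        (one_le_pow₀ (by linarith))
    have hn1 : 1 ≤ n := one_le_pow₀ hbase
    set γ : ℝ := (1 - min δ (1 / (4 * K))) * U.card with hγ
    have hγ1 : (1 - δ) * U.card ≤ γ := by
      rw [hγ]
      refine mul_le_mul_of_nonneg_right ?_ hU0
      have := min_le_left δ (1 / (4 * K))
      linarith
    have hγ2 : (U.card : ℝ) - U.card / (2 * K) + q ≤ γ := by
      have h1 : τ ≤ 1 / (8 * K) := hτle.trans (min_le_right _ _)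
      have h2 : (q : ℝ) ≤ U.card / (4 * K) := by
        refine hq2.trans ?_
        calc 2 * τ * U.card ≤ 2 * (1 / (8 * K)) * U.card := by
              refine mul_le_mul_of_nonneg_right ?_ hU0
              linarith
          _ = U.card / (4 * K) := by
              field_simp
              ring
      have h3 : (1 - 1 / (4 * K)) * U.card ≤ γ := by
        rw [hγ]
        refine mul_le_mul_of_nonneg_right ?_ hU0
        have := min_le_right δ (1 / (4 * K))
        linarith
      refine le_trans ?_ h3
      have h4 : (1 - 1 / (4 * K)) * U.card = (U.card : ℝ) - U.card / (2 * K) + U.card / (4 * K) := by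
        field_simp
        ring
      rw [h4]
      linarith
    have h := phase hw hD hK hτ hτ1 hq1 hq2 hC hγ2 hn1
      (fun g hg => (hmain U g (τ * D / 4) τ q (by positivity) hτ
        (hτle.trans (min_le_left _ _)) hq1 hq2 hg).mono (fun I hI => hI) le_rfl hγ1)
      U.card U ∅ (fun _ => 0) q 0 rfl (Subset.refl U) (empty_subset U) (by omega) (by simp)
      (fun _ => le_rfl) (fun f hf => absurd rfl hf) (by simp) (by simp) ?_
    · refine h.mono ?_ (le_of_eq ?_) le_rfl
      · rintro I ⟨h1, h2⟩
        exact ⟨h1.trans subset_union_left, h2, fun _ _ => rfl⟩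
      · rw [hn, Nat.add_sub_cancel]
        obtain ⟨s', rfl⟩ : ∃ s', s = s' + 1 := ⟨s - 1, by omega⟩
        rw [Nat.add_sub_cancel, pow_succ]
        ring
    · intro J _
      have h1 : deg U (fun _ => (0 : ℝ)) J = 0 := by
        unfold deg
        exact sum_eq_zero fun e _ => by split_ifs <;> rfl
      rw [h1]
      positivity

end Pool.Agent.Y940.CT
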